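import Pool.Agent.Helper17.FP.Stmts

/-! Module CL2 (MP_c38931_co, project FP): at most two classes modulo a prime. -/

set_option autoImplicit false

open Finset

namespace Pool.Agent.Helper17.FP

open Pool.Agent.Helper17.SO Pool.Agent.Helper17.SV

theorem st_CL2 (hR : Pool.Agent.Helper17.SO.ST_RES) : ST_CL2 := by
  classical
  intro lam q hq
  refine ⟨(Finset.range q).filter (fun a => FD lam q a), ?_, ?_⟩
  · have h := hR lam {q} (by simpa using hq) ((Finset.range q).filter (fun a => FD lam q a))
      (by
        intro a ha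
        simp only [Finset.mem_filter, Finset.mem_range] at ha
        simpa using ha.1)
      (by
        intro a ha p hp
        simp only [Finset.mem_filter, Finset.mem_range] at ha
        rw [Finset.mem_singleton] at hp
        subst hp
        exact ha.2)
    simpa using h
  · intro k hk
    simp only [Finset.mem_filter, Finset.mem_range]
    refine ⟨Nat.mod_lt _ hq.pos, ?_⟩
    unfold FD at hk ⊢
    have e : (k : ℤ) = (k % q : ℕ) + (q : ℤ) * (k / q : ℕ) := by
      exact_mod_cast (Nat.mod_add_div k q).symm
    have h2 : (q : ℤ) ∣ ((k : ℤ) ^ 2 - k + lam) - (((k % q : ℕ) : ℤ) ^ 2 - ((k % q : ℕ) : ℤ) + lam) := by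
      refine ⟨(k / q : ℕ) * ((k : ℤ) + (k % q : ℕ) - 1), ?_⟩
      rw [e]
      push_cast
      ring
    exact (dvd_sub_right hk).mp h2

end Pool.Agent.Helper17.FP
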