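import Pool.Agent.Helper17.FP.Stmts

/-! Module DESF (MP_c38931_co, project FP): a design with the automorphism gives the arithmetic
condition. -/

set_option autoImplicit false

open Finset

namespace Pool.Agent.Helper17.FP

open Pool.Agent.Helper17.SO Pool.Agent.Helper17.SV

theorem st_DESF (hI : Pool.Agent.Helper17.SO.ST_INC) (hS : Pool.Agent.Helper17.SO.ST_SCH)
    (hQ : Pool.Agent.Helper17.SO.ST_QRA) (hC : Pool.Agent.Helper17.SV.ST_C1) : ST_DESF := by
  intro lam v k B hlam hk hkv hD hcls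
  obtain ⟨hlk, heq, hAA, hrow, hcol⟩ := hI v k lam B hlam hk hkv hD
  obtain ⟨n, hn⟩ : ∃ n, k = n + lam := ⟨k - lam, by omega⟩
  have hn1 : 1 ≤ n := by omega
  have hkk : k * k = n + lam * v := by omega
  have hAA' : inc B * (inc B).transpose = (n : ℤ) • (1 : Matrix (Fin v) (Fin v) ℤ) +
      (lam : ℤ) • Matrix.of (fun _ _ => (1 : ℤ)) := by
    rw [hAA]
    have : ((k : ℤ) - lam) = (n : ℤ) := by rw [hn]; push_cast; ring
    rw [this]
  rcases Nat.even_or_odd v with hv | hv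
  · left
    obtain ⟨r, hr⟩ := hS v k n lam (inc B) hn1 hk hkk hv (by omega) hAA'
    exact ⟨r, by rw [hn, hr]⟩
  · right
    obtain ⟨q, r, g, hq, hqv, hg1, hg2, hg3⟩ := hcls
    have hq2 : q ≠ 2 := by
      rintro rfl
      obtain ⟨a, ha⟩ := hv
      obtain ⟨b, hb⟩ := hqv
      omega
    refine ⟨q, v, n, hn, hn1, heq, hv, hq, hqv, ?_⟩
    intro p hp hpq hodd
    exact hQ q p hq hq2 hp hpq
      (hC v k lam n B hlam hk hkv hD hv hn q r g hq hq2 hg1 hg2 hg3 p hp hpq hodd)

end Pool.Agent.Helper17.FP
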